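import Pool.Agent.U424.DQ.StmN
import Pool.Agent.N189.PW.Padw

/-!
# Stable `p`-adic positions near all points, for quadrics in `d i ≥ 3` variables (project DQN of helper424)

Adapted from `Pool/Agent/N189/PW/Padw.lean` (helper189, conics).
-/

set_option autoImplicit false

namespace Pool.Agent.U898.DQ

open Finset hiding val
open Filter Topology
open Pool.Agent.N546.PN (Typ Mon val dval ic bx sz Pt LocN GlobN Smo bval sz1 bx1 S_UN3)
open Pool.Agent.U424.DQ
open Pool.Agent.N189.PW (approx na)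

/-- package PADNM -/
theorem padnm_ (h1 : Pool.Agent.N546.PN.S_DEL) (h2 : Pool.Agent.N546.PN.S_SMP)
    (h3 : ∀ (p : ℕ) [Fact p.Prime], S_LOCWM ℚ_[p]) : S_PADNM := by
  classical
  intro n r d hd e p _ ε ε' hε hε' hε'1
  have hp : p.Prime := Fact.out
  obtain ⟨Δ, hΔ0, hΔ⟩ := h1 n (Σ i : Fin r, Fin (d i)) e
  obtain ⟨N₁, H₁, hcount⟩ := h2 ((k : Σ i : Fin r, Fin (d i)) × Mon n (e k + 1)) Δ hΔ0 p hp ε hε
  let E : Type := (k : Σ i : Fin r, Fin (d i)) → Mon n (e k + 1) → ℚ_[p]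
  let X0 : Type := E × ((Fin (n + 1) → ℚ_[p]) × ((i : Fin r) → Fin (d i) → ℚ_[p]))
  let ev : E → ℚ_[p] :=
    fun c => MvPolynomial.aeval (fun q : (k : Σ i : Fin r, Fin (d i)) × Mon n (e k + 1) => c q.1 q.2) Δ
  have hev : Continuous ev := by
    have e1 : ev = fun c : E => MvPolynomial.eval
        (fun q : (k : Σ i : Fin r, Fin (d i)) × Mon n (e k + 1) => c q.1 q.2)
        (MvPolynomial.map (algebraMap ℤ ℚ_[p]) Δ) := by
      funext c
      simp only [ev]
      rw [MvPolynomial.aeval_def, MvPolynomial.eval₂_eq_eval_map]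
    rw [e1]
    refine (MvPolynomial.continuous_eval _).comp ?_
    exact continuous_pi fun q => (continuous_apply q.2).comp (continuous_apply q.1)
  let K₀ : Set E := Set.pi Set.univ fun k => Set.pi Set.univ fun _ => Metric.closedBall (0 : ℚ_[p]) 1
  have hK₀ : IsCompact K₀ :=
    isCompact_univ_pi fun k => isCompact_univ_pi fun _ => isCompact_closedBall _ _
  let Kc : Set X0 := K₀ ×ˢ (Metric.closedBall (0 : Fin (n + 1) → ℚ_[p]) 1 ×ˢ
    Set.pi Set.univ fun i => Metric.closedBall (0 : Fin (d i) → ℚ_[p]) 1)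
  have hKc : IsCompact Kc :=
    hK₀.prod ((isCompact_closedBall _ _).prod (isCompact_univ_pi fun _ => isCompact_closedBall _ _))
  have hval : ∀ k, Continuous (fun q : X0 => val (q.1 k) q.2.1) := by
    intro k
    unfold val
    refine continuous_finsetSum _ fun m _ =>
      Continuous.mul ?_ (continuous_finsetProd _ fun i _ => Continuous.pow ?_ _)
    · exact (continuous_apply m).comp ((continuous_apply k).comp continuous_fst)
    · exact (continuous_apply i).comp (continuous_fst.comp continuous_snd)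
  have hz : ∀ i l, Continuous (fun q : X0 => q.2.2 i l) := fun i l =>
    (continuous_apply l).comp ((continuous_apply i).comp (continuous_snd.comp continuous_snd))
  have hzi : ∀ i, Continuous (fun q : X0 => q.2.2 i) := fun i =>
    (continuous_apply i).comp (continuous_snd.comp continuous_snd)
  let C1 : Set X0 := {q | (p : ℝ) ^ (-(N₁ : ℤ)) ≤ ‖ev q.1‖}
  let C2 : Set X0 := {q | ‖q.2.1‖ = 1}
  let C3 : Set X0 := {q | ∀ i, ‖q.2.2 i‖ = 1}
  let C4 : Set X0 := {q | ∀ i, ∑ l, val (q.1 ⟨i, l⟩) q.2.1 * q.2.2 i l ^ 2 = 0}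
  have hC1 : IsClosed C1 := isClosed_le continuous_const (hev.comp continuous_fst).norm
  have hC2 : IsClosed C2 :=
    isClosed_eq (continuous_fst.comp continuous_snd).norm continuous_const
  have hC3 : IsClosed C3 := by
    have : C3 = ⋂ i, {q : X0 | ‖q.2.2 i‖ = 1} := by
      ext q
      simp [C3]
    rw [this]
    exact isClosed_iInter fun i => isClosed_eq (hzi i).norm continuous_const
  have hC4 : IsClosed C4 := by
    have : C4 = ⋂ i, {q : X0 | ∑ l, val (q.1 ⟨i, l⟩) q.2.1 * q.2.2 i l ^ 2 = 0} := by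
      ext q
      simp [C4]
    rw [this]
    exact isClosed_iInter fun i => isClosed_eq
      (continuous_finsetSum _ fun l _ => (hval _).mul ((hz i l).pow 2)) continuous_const
  let Q : Set X0 := Kc ∩ (C1 ∩ (C2 ∩ (C3 ∩ C4)))
  have hQ : IsCompact Q := hKc.inter_right (hC1.inter (hC2.inter (hC3.inter hC4)))
  have hp0 : (0 : ℝ) < p := by exact_mod_cast hp.pos
  have hp1 : (1 : ℝ) < p := by exact_mod_cast hp.one_lt
  have hlocal : ∀ q ∈ Q, ∃ (x : Fin (n + 1) → ℚ_[p]) (δ : ℝ), 0 < δ ∧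
      (∀ i, ‖x i - q.2.1 i‖ < ε') ∧ GdM q.1 q.2.2 x δ ε' := by
    rintro q ⟨-, hq1, hq2, hq3, hq4⟩
    have hsm : Smo q.1 := by
      by_contra hns
      have h5 := hΔ ℚ_[p] q.1 hns
      have h6 : (p : ℝ) ^ (-(N₁ : ℤ)) ≤ ‖ev q.1‖ := hq1
      simp only [ev] at h6
      rw [h5, norm_zero] at h6
      have h7 : 0 < (p : ℝ) ^ (-(N₁ : ℤ)) := zpow_pos hp0 _
      linarith
    have hx0 : q.2.1 ≠ 0 := by
      intro h
      have h5 : ‖q.2.1‖ = 1 := hq2
      rw [h, norm_zero] at h5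
      exact zero_ne_one h5
    have hon : OnM (fun k => val (q.1 k) q.2.1) q.2.2 := by
      intro i
      refine ⟨?_, hq4 i⟩
      intro h
      have h5 : ‖q.2.2 i‖ = 1 := hq3 i
      rw [h, norm_zero] at h5
      exact zero_ne_one h5
    obtain ⟨x', hx', δ, hδ, hG⟩ := h3 p n r d hd e q.1 q.2.1 q.2.2 hsm hx0 hon ε' hε'
    exact ⟨x', δ, hδ, hx', hG⟩
  choose! X δ hδ hX1 hX2 using hlocal
  obtain ⟨t, htQ, hcov⟩ := hQ.elim_nhds_subcover
    (fun q => Metric.ball q.1 (δ q) ×ˢ (Metric.ball q.2.1 ε' ×ˢ Metric.ball q.2.2 ε'))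
    (fun q hq => prod_mem_nhds (Metric.ball_mem_nhds _ (hδ q hq))
      (prod_mem_nhds (Metric.ball_mem_nhds _ hε') (Metric.ball_mem_nhds _ hε')))
  -- the exponent
  have hpow : ∀ s : ℝ, 0 < s → ∃ N : ℕ, ∀ M, N ≤ M → (p : ℝ) ^ (-(M : ℤ)) < s := by
    intro s hs
    obtain ⟨N, hN⟩ := exists_pow_lt_of_lt_one hs (inv_lt_one_of_one_lt₀ hp1)
    refine ⟨N, fun M hM => lt_of_le_of_lt ?_ hN⟩
    rw [zpow_neg, zpow_natCast, inv_pow]
    exact inv_anti₀ (by positivity) (pow_le_pow_right₀ hp1.le hM)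
  have hN : ∃ N₀ : ℕ, ∀ N, N₀ ≤ N → (p : ℝ) ^ (-(N : ℤ)) < ε' ∧
      ∀ q ∈ t, (p : ℝ) ^ (-(N : ℤ)) < δ q := by
    have hNc : ∀ q : X0, ∃ N : ℕ, q ∈ t → ∀ M, N ≤ M → (p : ℝ) ^ (-(M : ℤ)) < δ q := by
      intro q
      by_cases hc : q ∈ t
      · obtain ⟨N, hN⟩ := hpow (δ q) (hδ q (htQ q hc))
        exact ⟨N, fun _ => hN⟩
      · exact ⟨0, fun h => absurd h hc⟩
    choose Nc hNc using hNc
    obtain ⟨N', hN'⟩ := hpow ε' hε'
    refine ⟨max N' (t.sup Nc), fun N hNN => ⟨hN' N ((le_max_left _ _).trans hNN), fun q hq => ?_⟩⟩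
    exact hNc q hq N ((Finset.le_sup hq).trans ((le_max_right _ _).trans hNN))
  obtain ⟨N₀, hN₀⟩ := hN
  refine ⟨N₀, fun N hNN => ?_⟩
  obtain ⟨hNε, hNδ⟩ := hN₀ N hNN
  -- the exceptional families
  have hexc : ∀ c : (k : Σ i : Fin r, Fin (d i)) → Mon n (e k + 1) → ℤ, (¬ StPM p N ε' c) →
      (p : ℤ) ^ N₁ ∣
        MvPolynomial.eval (fun q : (k : Σ i : Fin r, Fin (d i)) × Mon n (e k + 1) => c q.1 q.2) Δ := by
    intro c hst
    by_contra hnd
    apply hst
    intro x z hx hz1 hon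
    have hqQ : ((ic c ℚ_[p], (x, z)) : X0) ∈ Q := by
      refine ⟨⟨?_, ?_, ?_⟩, ?_, hx, hz1, fun i => (hon i).2⟩
      · intro k _ m _
        rw [mem_closedBall_zero_iff]
        exact Padic.norm_int_le_one _
      · exact mem_closedBall_zero_iff.2 hx.le
      · intro i _
        exact mem_closedBall_zero_iff.2 (hz1 i).le
      · have e1 : ev (ic c ℚ_[p]) =
            ((MvPolynomial.eval (fun q : (k : Σ i : Fin r, Fin (d i)) × Mon n (e k + 1) => c q.1 q.2) Δ :
              ℤ) : ℚ_[p]) := by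
          have := MvPolynomial.aeval_algebraMap_apply (R := ℤ) (A := ℤ) ℚ_[p]
            (fun q : (k : Σ i : Fin r, Fin (d i)) × Mon n (e k + 1) => c q.1 q.2) Δ
          simp only [ev]
          rw [← MvPolynomial.coe_aeval_eq_eval]
          simpa [Function.comp_def, ic] using this
        show (p : ℝ) ^ (-(N₁ : ℤ)) ≤ ‖ev (ic c ℚ_[p])‖
        rw [e1]
        rw [← Padic.norm_int_le_pow_iff_dvd, not_le] at hnd
        exact hnd.le
    have hmem := hcov hqQ
    simp only [Set.mem_iUnion] at hmem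
    obtain ⟨q, hq, hb1, hb2, hb3⟩ := hmem
    have hqQ' := htQ q hq
    have hd : ∀ k m, ‖(c k m : ℚ_[p]) - q.1 k m‖ < δ q := by
      intro k m
      rw [Metric.mem_ball] at hb1
      have h5 := (dist_pi_lt_iff (hδ q hqQ')).1 hb1 k
      have h6 := (dist_pi_lt_iff (hδ q hqQ')).1 h5 m
      rw [dist_eq_norm] at h6
      exact h6
    have hdx : ∀ i, ‖x i - q.2.1 i‖ < ε' := by
      intro i
      rw [Metric.mem_ball] at hb2
      have h5 := (dist_pi_lt_iff hε').1 hb2 i
      rw [dist_eq_norm] at h5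
      exact h5
    have hdz : ∀ i l, ‖z i l - q.2.2 i l‖ < ε' := by
      intro i l
      rw [Metric.mem_ball] at hb3
      have h5 := (dist_pi_lt_iff hε').1 hb3 i
      have h6 := (dist_pi_lt_iff hε').1 h5 l
      rw [dist_eq_norm] at h6
      exact h6
    have hX : ∀ i, ‖X q i‖ ≤ 1 := by
      intro i
      have h5 : ‖q.2.1 i‖ ≤ 1 := by
        have h6 : ‖q.2.1‖ = 1 := hqQ'.2.2.1
        exact (norm_le_pi_norm q.2.1 i).trans h6.le
      have h7 : X q i = (X q i - q.2.1 i) + q.2.1 i := by ring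
      rw [h7]
      exact (Padic.nonarchimedean _ _).trans (max_le ((hX1 q hqQ' i).le.trans hε'1) h5)
    choose a ha using fun i => approx p (X q i) (hX i) N
    refine ⟨a, fun i => ?_, fun c' a' hc' ha' => ?_⟩
    · have h5 : ‖((a i : ℤ) : ℚ_[p]) - X q i‖ < ε' := lt_of_le_of_lt (ha i) hNε
      have h6 : ‖q.2.1 i - x i‖ < ε' := by
        rw [norm_sub_rev]
        exact hdx i
      exact na h5 (na (hX1 q hqQ' i) h6)
    · obtain ⟨hnv, z'', hz'', hon''⟩ := hX2 q hqQ' (ic c' ℚ_[p]) (fun i => ((a' i : ℤ) : ℚ_[p])) (by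
          intro k m
          have h5 : ‖((c' k m - c k m : ℤ) : ℚ_[p])‖ < δ q :=
            lt_of_le_of_lt ((Padic.norm_int_le_pow_iff_dvd _ N).2 (by exact_mod_cast hc' k m))
              (hNδ q hq)
          push_cast at h5
          exact na h5 (hd k m)) (by
          intro i
          have h5 : ‖((a' i - a i : ℤ) : ℚ_[p])‖ < δ q :=
            lt_of_le_of_lt ((Padic.norm_int_le_pow_iff_dvd _ N).2 (by exact_mod_cast ha' i))
              (hNδ q hq)
          push_cast at h5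
          exact na h5 (lt_of_le_of_lt (ha i) (hNδ q hq)))
      refine ⟨hnv, z'', fun i l => ?_, hon''⟩
      have h6 : ‖q.2.2 i l - z i l‖ < ε' := by
        rw [norm_sub_rev]
        exact hdz i l
      exact na (hz'' i l) h6
  refine ⟨H₁, fun H hH => ?_⟩
  refine le_trans ?_ (le_trans (hcount H hH) (le_of_eq ?_))
  · rw [Nat.cast_le]
    refine card_le_card_of_injOn
      (fun c => fun q : (k : Σ i : Fin r, Fin (d i)) × Mon n (e k + 1) => c q.1 q.2) ?_ ?_
    · intro c hc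
      obtain ⟨hc1, hc2⟩ := mem_filter.1 (mem_coe.1 hc)
      refine mem_coe.2 (mem_filter.2 ⟨?_, hexc c hc2⟩)
      rw [Fintype.mem_piFinset]
      intro q
      exact Fintype.mem_piFinset.1 (Fintype.mem_piFinset.1 hc1 q.1) q.2
    · intro c _ c' _ h
      funext k m
      exact congrFun h ⟨k, m⟩
  · rw [Fintype.card_sigma]
    rfl

end Pool.Agent.U898.DQ
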